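import Pool.Agent.H516.PCF.All
import Pool.Agent.H516.PCF.StmF

/-!
# Facts on the preimage tower (S_TOW of project PCF)
-/

set_option autoImplicit false

namespace Pool.Agent.H161.PCF

open Polynomial NumberField
open Pool.Agent.H516.PCF

section basic

variable {k : Type} [Field k] {d : ℕ} {P Q : k[X]}

theorem rmap_infty (d : ℕ) (P Q : k[X]) : rmap d P Q OnePoint.infty =
    open Classical in
    if Q.coeff d = 0 then OnePoint.infty else ((P.coeff d / Q.coeff d : k) : OnePoint k) := rfl

theorem rmap_coe (d : ℕ) (P Q : k[X]) (x : k) : rmap d P Q (x : OnePoint k) =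
    open Classical in
    if Q.eval x = 0 then OnePoint.infty else ((P.eval x / Q.eval x : k) : OnePoint k) := rfl

theorem coeff_ne (h : IsRat d P Q) (h1 : P.coeff d = 0) (h2 : Q.coeff d = 0) : False := by
  have hd := h.two_le
  have hdeg := h.deg
  rcases max_choice P.natDegree Q.natDegree with h3 | h3
  · rw [h3] at hdeg
    rw [← hdeg, coeff_natDegree, leadingCoeff_eq_zero] at h1
    rw [h1, natDegree_zero] at hdeg
    omega
  · rw [h3] at hdeg
    rw [← hdeg, coeff_natDegree, leadingCoeff_eq_zero] at h2
    rw [h2, natDegree_zero] at hdeg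
    omega

theorem root_ne (h : IsRat d P Q) (x : k) (h1 : P.eval x = 0) (h2 : Q.eval x = 0) : False := by
  obtain ⟨u, v, huv⟩ := h.cop
  have := congrArg (Polynomial.eval x) huv
  rw [eval_add, eval_mul, eval_mul, h1, h2, eval_one] at this
  simp at this

theorem Q_ne (h : IsRat d P Q) : Q ≠ 0 := by
  intro hQ
  have hd := h.two_le
  have hdeg := h.deg
  have hc := h.cop
  rw [hQ, isCoprime_zero_right] at hc
  rw [hQ, natDegree_zero, natDegree_eq_zero_of_isUnit hc] at hdeg
  simp at hdeg
  omega

theorem sub_ne (h : IsRat d P Q) (c : k) : P - C c * Q ≠ 0 := by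
  intro h0
  have hd := h.two_le
  have hdeg := h.deg
  have hc := h.cop
  rw [sub_eq_zero] at h0
  have hu : IsUnit Q := by
    refine hc.isUnit_of_dvd' ?_ dvd_rfl
    rw [h0]
    exact dvd_mul_left _ _
  have h1 := natDegree_eq_zero_of_isUnit hu
  have h2 : P.natDegree = 0 := by
    rw [h0]
    refine Nat.le_zero.1 ((natDegree_C_mul_le _ _).trans ?_)
    rw [h1]
  rw [h1, h2] at hdeg
  simp at hdeg
  omega

theorem fib_finite (h : IsRat d P Q) (z : OnePoint k) : (rmap d P Q ⁻¹' {z}).Finite := by
  classical
  have key : ∃ U : k[X], U ≠ 0 ∧ ∀ x : k, rmap d P Q (x : OnePoint k) = z → U.eval x = 0 := by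
    induction z using OnePoint.rec with
    | infty =>
      refine ⟨Q, Q_ne h, fun x hx => ?_⟩
      rw [rmap_coe] at hx
      by_contra h1
      rw [if_neg h1] at hx
      exact OnePoint.coe_ne_infty _ hx
    | coe c =>
      refine ⟨P - C c * Q, sub_ne h c, fun x hx => ?_⟩
      rw [rmap_coe] at hx
      by_cases h1 : Q.eval x = 0
      · rw [if_pos h1] at hx
        exact absurd hx.symm (OnePoint.coe_ne_infty _)
      · rw [if_neg h1] at hx
        have h2 := OnePoint.coe_injective hx
        rw [div_eq_iff h1] at h2
        rw [eval_sub, eval_mul, eval_C, h2, sub_self]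
  obtain ⟨U, hU, hx⟩ := key
  have hfin : {x : k | U.eval x = 0}.Finite := by
    refine (U.roots.toFinset.finite_toSet).subset fun x hx => ?_
    rw [Finset.mem_coe, Multiset.mem_toFinset, mem_roots hU]
    exact hx
  refine ((hfin.image (fun x : k => (x : OnePoint k))).union
    (Set.finite_singleton OnePoint.infty)).subset fun y hy => ?_
  induction y using OnePoint.rec with
  | infty => exact Or.inr rfl
  | coe x => exact Or.inl ⟨x, hx x hy, rfl⟩

theorem iter_finite (h : IsRat d P Q) (n : ℕ) (z : OnePoint k) :
    {y | (rmap d P Q)^[n] y = z}.Finite := by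
  induction n with
  | zero =>
    refine (Set.finite_singleton z).subset fun y hy => ?_
    exact hy
  | succ n ih =>
    have h1 := ih.preimage' (f := rmap d P Q) fun b _ => fib_finite h b
    refine h1.subset fun y hy => ?_
    rw [Set.mem_ofPred_eq, Function.iterate_succ_apply] at hy
    exact hy

theorem surj [IsAlgClosed k] (h : IsRat d P Q) (c : k) :
    ∃ z : OnePoint k, rmap d P Q z = (c : OnePoint k) := by
  by_cases h0 : (P - C c * Q).degree = 0
  · -- constant
    have hd := h.two_le
    have h1 : (P - C c * Q).coeff d = 0 := by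
      apply coeff_eq_zero_of_degree_lt
      rw [h0]
      exact_mod_cast (show 0 < d by omega)
    rw [coeff_sub, coeff_C_mul, sub_eq_zero] at h1
    have h2 : Q.coeff d ≠ 0 := by
      intro h3
      rw [h3, mul_zero] at h1
      exact coeff_ne h h1 h3
    refine ⟨OnePoint.infty, ?_⟩
    rw [rmap_infty, if_neg h2, h1, mul_div_cancel_right₀ _ h2]
  · obtain ⟨x, hx⟩ := IsAlgClosed.exists_root _ h0
    rw [IsRoot.def, eval_sub, eval_mul, eval_C, sub_eq_zero] at hx
    have h2 : Q.eval x ≠ 0 := by
      intro h3
      rw [h3, mul_zero] at hx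
      exact root_ne h x hx h3
    refine ⟨(x : OnePoint k), ?_⟩
    rw [rmap_coe, if_neg h2, hx, mul_div_cancel_right₀ _ h2]

end basic

section tower

variable {K : Type} [Field K] {d : ℕ} {P Q : K[X]}

theorem map_isRat {L : Type} [Field L] [Algebra K L] (h : IsRat d P Q) :
    IsRat d (P.map (algebraMap K L)) (Q.map (algebraMap K L)) := by
  refine ⟨h.two_le, h.cop.map (Polynomial.mapRingHom (algebraMap K L)), ?_⟩
  rw [natDegree_map, natDegree_map]
  exact h.deg

theorem comm {L : Type} [Field L] [Algebra K L] (σ : L →ₐ[K] L) (d : ℕ) (P Q : K[X])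
    (z : OnePoint L) :
    OnePoint.map σ (rmap d (P.map (algebraMap K L)) (Q.map (algebraMap K L)) z) =
      rmap d (P.map (algebraMap K L)) (Q.map (algebraMap K L)) (OnePoint.map σ z) := by
  induction z using OnePoint.rec with
  | infty =>
    rw [OnePoint.map_infty, rmap_infty]
    split_ifs with h
    · rw [OnePoint.map_infty]
    · rw [OnePoint.map_some]
      congr 1
      rw [coeff_map, coeff_map, ← map_div₀, AlgHom.commutes]
  | coe x =>
    have h1 : ∀ R : K[X], (R.map (algebraMap K L)).eval (σ x) = σ ((R.map (algebraMap K L)).eval x) := by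
      intro R
      rw [eval_map_algebraMap, eval_map_algebraMap, aeval_algHom_apply]
    rw [OnePoint.map_some, rmap_coe, rmap_coe, h1, h1]
    by_cases h : (Q.map (algebraMap K L)).eval x = 0
    · rw [if_pos h, if_pos (by rw [h, map_zero]), OnePoint.map_infty]
    · rw [if_neg h, if_neg (by rwa [map_eq_zero]), OnePoint.map_some, map_div₀]

theorem comm_iter {L : Type} [Field L] [Algebra K L] (σ : L →ₐ[K] L) (d : ℕ) (P Q : K[X])
    (n : ℕ) (z : OnePoint L) :
    OnePoint.map σ ((rmap d (P.map (algebraMap K L)) (Q.map (algebraMap K L)))^[n] z) =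
      (rmap d (P.map (algebraMap K L)) (Q.map (algebraMap K L)))^[n] (OnePoint.map σ z) := by
  induction n generalizing z with
  | zero => rfl
  | succ n ih => rw [Function.iterate_succ_apply, ih, comm, Function.iterate_succ_apply]

theorem map_map {L : Type} [Field L] [Algebra K L] (σ : L →ₐ[K] L) (α : OnePoint K) :
    OnePoint.map σ (OnePoint.map (algebraMap K L) α) = OnePoint.map (algebraMap K L) α := by
  induction α using OnePoint.rec with
  | infty => rfl
  | coe x => rw [OnePoint.map_some, OnePoint.map_some, AlgHom.commutes]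

end tower

theorem aeval_mem' {K L : Type} [Field K] [Field L] [Algebra K L] (E : IntermediateField K L)
    {x : L} (hx : x ∈ E) (R : K[X]) : aeval x R ∈ E := by
  rw [show aeval x R = ((aeval (⟨x, hx⟩ : E) R : E) : L) from IntermediateField.aeval_coe E ⟨x, hx⟩ R]
  exact (aeval (⟨x, hx⟩ : E) R : E).2

theorem tow : Pool.Agent.H516.PCF.S_TOW := by
  intro K _ _ d P Q h α n
  have h' : IsRat d (P.map (algebraMap K (AlgebraicClosure K)))
    (Q.map (algebraMap K (AlgebraicClosure K))) := map_isRat h
  have hfd : ∀ n, FiniteDimensional K (tower K d P Q α n) := by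
    intro n
    have hfin := iter_finite h' n (OnePoint.map (algebraMap K (AlgebraicClosure K)) α)
    have hfin2 : {x : AlgebraicClosure K |
        (rmap d (P.map (algebraMap K (AlgebraicClosure K)))
          (Q.map (algebraMap K (AlgebraicClosure K))))^[n]
        (x : OnePoint (AlgebraicClosure K)) =
          OnePoint.map (algebraMap K (AlgebraicClosure K)) α}.Finite :=
      hfin.preimage (OnePoint.coe_injective.injOn)
    have := hfin2.to_subtype
    exact IntermediateField.finiteDimensional_adjoin fun x _ => Algebra.IsIntegral.isIntegral x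
  refine ⟨hfd n, ?_, ?_⟩
  · have hn : Normal K (tower K d P Q α n) := by
      rw [IntermediateField.normal_iff_forall_map_le]
      intro σ
      unfold tower
      rw [IntermediateField.adjoin_map]
      refine IntermediateField.adjoin.mono _ _ _ ?_
      rintro _ ⟨x, hx, rfl⟩
      rw [Set.mem_ofPred_eq] at hx ⊢
      have h1 := congrArg (OnePoint.map σ) hx
      rw [comm_iter, map_map, OnePoint.map_some] at h1
      exact h1
    exact ⟨⟩
  · unfold tower
    rw [IntermediateField.adjoin_le_iff]
    intro β hβ
    rw [Set.mem_ofPred_eq] at hβ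
    obtain ⟨z, hz⟩ := surj h' β
    have h1 : (rmap d (P.map (algebraMap K (AlgebraicClosure K)))
        (Q.map (algebraMap K (AlgebraicClosure K))))^[n + 1] z =
          OnePoint.map (algebraMap K (AlgebraicClosure K)) α := by
      rw [Function.iterate_succ_apply, hz, hβ]
    induction z using OnePoint.rec with
    | infty =>
      rw [rmap_infty] at hz
      split_ifs at hz with h2
      · exact absurd hz.symm (OnePoint.coe_ne_infty _)
      · have h3 := OnePoint.coe_injective hz
        rw [← h3, coeff_map, coeff_map, ← map_div₀]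
        exact IntermediateField.algebraMap_mem _ _
    | coe x =>
      have hx : x ∈ IntermediateField.adjoin K {x : AlgebraicClosure K |
          (rmap d (P.map (algebraMap K (AlgebraicClosure K)))
            (Q.map (algebraMap K (AlgebraicClosure K))))^[n + 1]
          (x : OnePoint (AlgebraicClosure K)) =
            OnePoint.map (algebraMap K (AlgebraicClosure K)) α} :=
        IntermediateField.subset_adjoin _ _ h1
      rw [rmap_coe] at hz
      split_ifs at hz with h2
      · exact absurd hz.symm (OnePoint.coe_ne_infty _)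
      · have h3 := OnePoint.coe_injective hz
        rw [← h3, eval_map_algebraMap, eval_map_algebraMap]
        exact div_mem (aeval_mem' _ hx _) (aeval_mem' _ hx _)

end Pool.Agent.H161.PCF
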